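import Pool.Agent.P.MP_f981b0_an.IS27.Abs

/-!
Model-free lemmas on powers, and stability of zero pairs under convergent power series.
-/

set_option autoImplicit false

open Finset

noncomputable section

namespace Pool.Agent.P.MP_f981b0_an.IS27

section Ring

variable {R : Type*} [NormedRing R]

/-- One small power gives a convergent series. -/
theorem summable_of_pow {A : R} {N : ℕ} (hN : 1 ≤ N) {q r : ℝ} (hq : 0 ≤ q) (hr : 0 ≤ r)
    (h : ‖A ^ N‖ ≤ q ^ N) (hrq : r * q < 1) : Summable fun l => r ^ l * ‖A ^ l‖ := by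
  set ρ := max (r * q) (1 / 2) with hρ
  have h0 : 0 < ρ := lt_max_of_lt_right (by norm_num)
  have h1 : ρ < 1 := max_lt hrq (by norm_num)
  set C := ∑ i ∈ range N, r ^ i * ‖A ^ i‖ / ρ ^ i with hC
  have h2 : ∀ l, r ^ l * ‖A ^ l‖ ≤ C * ρ ^ l := by
    intro l
    induction l using Nat.strong_induction_on with
    | _ l ih =>
      rcases lt_or_ge l N with hl | hl
      · rw [← div_le_iff₀ (by positivity)]
        exact single_le_sum (f := fun i => r ^ i * ‖A ^ i‖ / ρ ^ i) (fun i _ => by positivity)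
          (mem_range.2 hl)
      · obtain ⟨j, rfl⟩ := Nat.exists_eq_add_of_le hl
        have h3 := ih j (by omega)
        have h4 : ‖A ^ (N + j)‖ ≤ q ^ N * ‖A ^ j‖ := by
          rw [pow_add]
          exact (norm_mul_le _ _).trans (mul_le_mul_of_nonneg_right h (norm_nonneg _))
        have h5 : (r * q) ^ N ≤ ρ ^ N := pow_le_pow_left₀ (by positivity) (le_max_left _ _) N
        calc r ^ (N + j) * ‖A ^ (N + j)‖ ≤ r ^ (N + j) * (q ^ N * ‖A ^ j‖) := by gcongr
          _ = (r * q) ^ N * (r ^ j * ‖A ^ j‖) := by ring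
          _ ≤ ρ ^ N * (C * ρ ^ j) := by gcongr
          _ = C * ρ ^ (N + j) := by ring
  exact Summable.of_nonneg_of_le (fun _ => by positivity) h2
    ((summable_geometric_of_lt_one h0.le h1).mul_left C)

theorem norm_pow_le_one {W : R} (h1 : ‖(1 : R)‖ ≤ 1) (hW : ‖W‖ ≤ 1) (n : ℕ) : ‖W ^ n‖ ≤ 1 := by
  induction n with
  | zero => rwa [pow_zero]
  | succ n ih =>
    rw [pow_succ]
    exact (norm_mul_le _ _).trans (mul_le_one₀ ih (norm_nonneg _) hW)

/-- Geometric decay of the powers of a contraction with one small power. -/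
theorem pow_decay {W : R} (h1 : ‖(1 : R)‖ ≤ 1) (hW : ‖W‖ ≤ 1) {N : ℕ} (hN : 1 ≤ N) {q : ℝ}
    (hq : 0 < q) (hq1 : q ≤ 1) (h : ‖W ^ N‖ ≤ q ^ N) (n : ℕ) : ‖W ^ n‖ ≤ q ^ n / q ^ N := by
  induction n using Nat.strong_induction_on with
  | _ n ih =>
    rcases lt_or_ge n N with hl | hl
    · refine (norm_pow_le_one h1 hW n).trans ?_
      rw [le_div_iff₀ (by positivity), one_mul]
      exact pow_le_pow_of_le_one hq.le hq1 hl.le
    · obtain ⟨j, rfl⟩ := Nat.exists_eq_add_of_le hl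
      calc ‖W ^ (N + j)‖ ≤ ‖W ^ N‖ * ‖W ^ j‖ := by
            rw [pow_add]
            exact norm_mul_le _ _
        _ ≤ q ^ N * (q ^ j / q ^ N) :=
            mul_le_mul h (ih j (by omega)) (norm_nonneg _) (by positivity)
        _ = q ^ (N + j) / q ^ N := by rw [pow_add, mul_div_assoc]

variable [NormedAlgebra ℂ R]

/-- Powers of `W = 1 - b` through powers of `A`. -/
theorem norm_w_pow {A b : R} {τ c : ℝ} (hτ : 0 < τ) (h1 : b * A = (τ : ℂ) • (1 - b))
    (h2 : A * b = (τ : ℂ) • (1 - b)) (hb : ‖b‖ ≤ c) {N : ℕ} (hN : 1 ≤ N) :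
    ‖(1 - b) ^ N‖ ≤ (c / τ) ^ N * ‖A ^ N‖ := by
  have hc : Commute b A := h1.trans h2.symm
  have h0 : (τ : ℂ) ≠ 0 := Complex.ofReal_ne_zero.2 hτ.ne'
  have h3 : 1 - b = (τ : ℂ)⁻¹ • (b * A) := by rw [h1, smul_smul, inv_mul_cancel₀ h0, one_smul]
  rw [h3, smul_pow, hc.mul_pow]
  refine (norm_smul_le _ _).trans ?_
  rw [norm_pow, norm_inv, Complex.norm_real, Real.norm_of_nonneg hτ.le, div_pow, inv_pow,
    div_eq_inv_mul, mul_assoc]
  refine mul_le_mul_of_nonneg_left ((norm_mul_le _ _).trans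
    (mul_le_mul_of_nonneg_right ?_ (norm_nonneg _))) (by positivity)
  exact (norm_pow_le' b hN).trans (pow_le_pow_left₀ (norm_nonneg _) hb N)

theorem one_sub_pow_mul {A W : R} {τ : ℂ} (h : (1 - W) * A = τ • W) (a : ℕ) :
    (1 - W ^ a) * A = τ • ∑ j ∈ range a, W ^ (j + 1) := by
  induction a with
  | zero => simp
  | succ a ih =>
    have h1 : 1 - W ^ (a + 1) = (1 - W ^ a) + W ^ a * (1 - W) := by
      rw [mul_sub, mul_one, ← pow_succ]
      abel
    rw [h1, add_mul, ih, mul_assoc, h, sum_range_succ, smul_add, mul_smul_comm, ← pow_succ]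

/-- The operator `(1 - W ^ a) A` is small. -/
theorem norm_one_sub_pow_mul {A W : R} {τ : ℝ} (hτ : 0 ≤ τ) (h : (1 - W) * A = (τ : ℂ) • W)
    (hW : ‖W‖ ≤ 1) (a : ℕ) : ‖(1 - W ^ a) * A‖ ≤ a * τ := by
  rw [one_sub_pow_mul h]
  refine (norm_smul_le _ _).trans ?_
  rw [Complex.norm_real, Real.norm_of_nonneg hτ, mul_comm]
  refine mul_le_mul_of_nonneg_right ((norm_sum_le _ _).trans ?_) hτ
  have h1 : ∀ j ∈ range a, ‖W ^ (j + 1)‖ ≤ 1 := fun j _ =>
    (norm_pow_le' W j.succ_pos).trans (pow_le_one₀ (norm_nonneg _) hW)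
  simpa using sum_le_sum h1

end Ring

section One

variable {E : Type*} [NormedAddCommGroup E] [NormedSpace ℂ E] [CompleteSpace E]

theorem hasSum_ser {A : E →L[ℂ] E} {z : ℂ} (hs : Summable fun l => ‖z‖ ^ l * ‖A ^ l‖)
    (y : E →L[ℂ] ℂ) (x : E) (i : ℕ) :
    HasSum (fun l => z ^ l * y ((A ^ (i + l)) x)) (y ((A ^ i) ((∑' l, z ^ l • A ^ l) x))) := by
  have h := (summable_ser hs).hasSum.mapL
    (y ∘L (A ^ i) ∘L ContinuousLinearMap.apply ℂ E x)
  convert h using 2 with l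
  · simp [pow_add]
  · rfl

end One

section Two

variable {E F : Type*} [NormedAddCommGroup E] [NormedSpace ℂ E] [NormedAddCommGroup F]
  [NormedSpace ℂ F]

/-- A zero pair that consists of a head and a tail. -/
def ZP (A : E →L[ℂ] E) (B : F →L[ℂ] F) (y : E →L[ℂ] ℂ) (y' : F →L[ℂ] ℂ) (x : E) (x' : F) : Prop :=
  ∀ l, y ((A ^ l) x) + y' ((B ^ l) x') = 0

variable {A : E →L[ℂ] E} {B : F →L[ℂ] F} {y : E →L[ℂ] ℂ} {y' : F →L[ℂ] ℂ} {x v : E} {x' v' : F}

theorem ZP.zero (h : ZP A B y y' x x') : y x + y' x' = 0 := h 0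

theorem ZP.step (h : ZP A B y y' x x') : ZP A B y y' (A x) (B x') := fun l => by
  have := h (l + 1)
  rwa [pow_succ, pow_succ] at this

theorem ZP.add (h : ZP A B y y' x x') (h' : ZP A B y y' v v') : ZP A B y y' (x + v) (x' + v') :=
  fun l => by
    simp only [map_add]
    linear_combination h l + h' l

theorem ZP.sub (h : ZP A B y y' x x') (h' : ZP A B y y' v v') : ZP A B y y' (x - v) (x' - v') :=
  fun l => by
    simp only [map_sub]
    linear_combination h l - h' l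

theorem ZP.smul (h : ZP A B y y' x x') (c : ℂ) : ZP A B y y' (c • x) (c • x') := fun l => by
  simp only [map_smul, smul_eq_mul]
  linear_combination c * h l

theorem ZP.iter {S : E →L[ℂ] E} {T : F →L[ℂ] F}
    (hs : ∀ x x', ZP A B y y' x x' → ZP A B y y' (S x) (T x')) (n : ℕ) (h : ZP A B y y' x x') :
    ZP A B y y' ((S ^ n) x) ((T ^ n) x') := by
  induction n with
  | zero => exact h
  | succ n ih =>
    rw [pow_succ', pow_succ']
    exact hs _ _ ih

theorem ZP.pow (h : ZP A B y y' x x') (n : ℕ) : ZP A B y y' ((A ^ n) x) ((B ^ n) x') :=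
  ZP.iter (fun _ _ h => h.step) n h

theorem ZP.aeval (h : ZP A B y y' x x') (p : Polynomial ℂ) :
    ZP A B y y' (Polynomial.aeval A p x) (Polynomial.aeval B p x') := by
  induction p using Polynomial.induction_on' with
  | add p q hp hq =>
    rw [map_add, map_add]
    exact hp.add hq
  | monomial n c =>
    simp only [Polynomial.aeval_monomial, Algebra.algebraMap_eq_smul_one, smul_mul_assoc, one_mul]
    exact (h.pow n).smul c

variable [CompleteSpace E] [CompleteSpace F]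

/-- Zero pairs are kept by the resolvent series. -/
theorem ZP.ser (h : ZP A B y y' x x') {z : ℂ} (hA : Summable fun l => ‖z‖ ^ l * ‖A ^ l‖)
    (hB : Summable fun l => ‖z‖ ^ l * ‖B ^ l‖) :
    ZP A B y y' ((∑' l, z ^ l • A ^ l) x) ((∑' l, z ^ l • B ^ l) x') := fun i => by
  have h1 := (hasSum_ser hA y x i).add (hasSum_ser hB y' x' i)
  have h2 : (fun l => z ^ l * y ((A ^ (i + l)) x) + z ^ l * y' ((B ^ (i + l)) x')) = fun _ => 0 :=
    funext fun l => by rw [← mul_add, h, mul_zero]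
  rw [h2] at h1
  exact h1.unique hasSum_zero

/-- Zero pairs are kept by `1 - W ^ n`, where `W` is one minus the resolvent series. -/
theorem ZP.one_sub_w_pow (h : ZP A B y y' x x') {z : ℂ}
    (hA : Summable fun l => ‖z‖ ^ l * ‖A ^ l‖) (hB : Summable fun l => ‖z‖ ^ l * ‖B ^ l‖) (n : ℕ) :
    ZP A B y y' ((1 - (1 - ∑' l, z ^ l • A ^ l) ^ n) x) ((1 - (1 - ∑' l, z ^ l • B ^ l) ^ n) x') :=
  h.sub (ZP.iter (fun _ _ h => h.sub (h.ser hA hB)) n h)

end Two

end Pool.Agent.P.MP_f981b0_an.IS27
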