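import Mathlib

/-!
Model-free operator lemmas: perturbation of power series, resolvents of almost accretive
operators, and a Bessel bound for the orbit of a contraction.
-/

set_option autoImplicit false

open scoped InnerProductSpace
open Finset

noncomputable section

namespace Pool.Agent.P.MP_f981b0_an.IS27

section Ring

variable {R : Type*} [NormedRing R]

theorem pow_add_eq (A E : R) (m : ℕ) :
    (A + E) ^ m = A ^ m + ∑ i ∈ range m, A ^ i * E * (A + E) ^ (m - 1 - i) := by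
  induction m with
  | zero => simp
  | succ m ihm =>
    have h1 : ∀ i ∈ range m, A ^ i * E * (A + E) ^ (m - 1 - i) * (A + E) =
        A ^ i * E * (A + E) ^ (m + 1 - 1 - i) := fun i hi => by
      have := mem_range.1 hi
      rw [mul_assoc, ← pow_succ]
      congr 2
      omega
    rw [sum_range_succ, pow_succ (A + E), ihm, add_mul, mul_add, sum_mul, sum_congr rfl h1,
      pow_succ A]
    simp only [Nat.add_sub_cancel, Nat.sub_self, pow_zero, mul_one]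
    abel

/-- Partial sums of the perturbed series. -/
theorem f4_fin (A E : R) {Z M k : ℝ} (hZ : 0 ≤ Z) (hE : ‖E‖ ≤ k)
    (hM : ∀ n, ∑ l ∈ range n, Z ^ l * ‖A ^ l‖ ≤ M) (hk : k * Z * M ≤ 1 / 2) (n : ℕ) :
    ∑ l ∈ range n, Z ^ l * ‖(A + E) ^ l‖ ≤ 2 * M := by
  have hk0 : 0 ≤ k := (norm_nonneg _).trans hE
  have hM0 : 0 ≤ M := by simpa using hM 0
  induction n with
  | zero => simpa using hM0
  | succ n ih =>
    set a : ℕ → ℝ := fun l => Z ^ l * ‖A ^ l‖ with ha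
    set b : ℕ → ℝ := fun l => Z ^ l * ‖(A + E) ^ l‖ with hb
    have ha0 : ∀ l, 0 ≤ a l := fun l => by positivity
    have hb0 : ∀ l, 0 ≤ b l := fun l => by positivity
    have h1 : ∀ l, b l ≤ a l + k * Z * ∑ i ∈ range l, a i * b (l - 1 - i) := fun l => by
      have h2 : ‖(A + E) ^ l‖ ≤ ‖A ^ l‖ + ∑ i ∈ range l, ‖A ^ i‖ * k * ‖(A + E) ^ (l - 1 - i)‖ := by
        conv_lhs => rw [pow_add_eq]
        refine (norm_add_le _ _).trans (add_le_add le_rfl ((norm_sum_le _ _).trans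
          (sum_le_sum fun i _ => ?_)))
        refine (norm_mul_le _ _).trans (mul_le_mul_of_nonneg_right ?_ (norm_nonneg _))
        exact (norm_mul_le _ _).trans (mul_le_mul_of_nonneg_left hE (norm_nonneg _))
      calc b l ≤ Z ^ l * (‖A ^ l‖ + ∑ i ∈ range l, ‖A ^ i‖ * k * ‖(A + E) ^ (l - 1 - i)‖) :=
            mul_le_mul_of_nonneg_left h2 (by positivity)
        _ = _ := by
          rw [mul_add, mul_sum, mul_sum]
          congr 1
          refine sum_congr rfl fun i hi => ?_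
          have := mem_range.1 hi
          have h3 : Z ^ l = Z * Z ^ i * Z ^ (l - 1 - i) := by
            rw [← pow_succ', ← pow_add]
            congr 1
            omega
          simp only [ha, hb]
          rw [h3]
          ring
    have h4 : ∑ l ∈ range (n + 1), ∑ i ∈ range l, a i * b (l - 1 - i) ≤
        (∑ i ∈ range n, a i) * ∑ j ∈ range n, b j := by
      rw [sum_range_succ', sum_range_zero, add_zero]
      simp only [Nat.add_sub_cancel]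
      rw [sum_range_diag_flip n fun i j => a i * b j, sum_mul]
      refine sum_le_sum fun i _ => ?_
      rw [← mul_sum]
      exact mul_le_mul_of_nonneg_left (sum_le_sum_of_subset_of_nonneg
        (range_mono (Nat.sub_le _ _)) fun j _ _ => hb0 j) (ha0 i)
    calc ∑ l ∈ range (n + 1), b l
        ≤ ∑ l ∈ range (n + 1), (a l + k * Z * ∑ i ∈ range l, a i * b (l - 1 - i)) :=
          sum_le_sum fun l _ => h1 l
      _ = ∑ l ∈ range (n + 1), a l +
          k * Z * ∑ l ∈ range (n + 1), ∑ i ∈ range l, a i * b (l - 1 - i) := by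
          rw [sum_add_distrib, mul_sum]
      _ ≤ M + k * Z * (M * (2 * M)) := by
          refine add_le_add (hM _) (mul_le_mul_of_nonneg_left (h4.trans ?_) (by positivity))
          exact mul_le_mul (hM n) ih (sum_nonneg fun j _ => hb0 j) hM0
      _ ≤ 2 * M := by nlinarith

/-- The perturbed series converges, with at most twice the sum. -/
theorem f4 (A E : R) {Z M k : ℝ} (hZ : 0 ≤ Z) (hE : ‖E‖ ≤ k)
    (hM : ∀ n, ∑ l ∈ range n, Z ^ l * ‖A ^ l‖ ≤ M) (hk : k * Z * M ≤ 1 / 2) :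
    (Summable fun l => Z ^ l * ‖(A + E) ^ l‖) ∧ ∑' l, Z ^ l * ‖(A + E) ^ l‖ ≤ 2 * M :=
  ⟨summable_of_sum_range_le (fun _ => by positivity) (f4_fin A E hZ hE hM hk),
    Real.tsum_le_of_sum_range_le (fun _ => by positivity) (f4_fin A E hZ hE hM hk)⟩

variable [NormedAlgebra ℂ R] [CompleteSpace R]

theorem summable_ser {A : R} {z : ℂ} (hs : Summable fun l => ‖z‖ ^ l * ‖A ^ l‖) :
    Summable fun l => z ^ l • A ^ l :=
  Summable.of_norm_bounded hs fun l => by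
    rw [← norm_pow]
    exact norm_smul_le _ _

/-- The power series inverts `1 - z A`. -/
theorem ser_inv {A : R} {z : ℂ} (hs : Summable fun l => ‖z‖ ^ l * ‖A ^ l‖) :
    (1 - z • A) * ∑' l, z ^ l • A ^ l = 1 ∧ (∑' l, z ^ l • A ^ l) * (1 - z • A) = 1 := by
  have h := summable_ser hs
  simp only [← smul_pow] at h ⊢
  exact ⟨h.one_sub_mul_tsum_pow, h.tsum_pow_mul_one_sub⟩

end Ring

section Hilbert

variable {E : Type*} [NormedAddCommGroup E] [InnerProductSpace ℂ E]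

/-- Almost accretive operators. -/
def Acc (A : E →L[ℂ] E) (k : ℝ) : Prop := ∀ x, -k * ‖x‖ ^ 2 ≤ (⟪x, A x⟫_ℂ).re

theorem Acc.mono {A : E →L[ℂ] E} {k k' : ℝ} (h : Acc A k) (hk : k ≤ k') : Acc A k' := fun x =>
  le_trans (by nlinarith [sq_nonneg ‖x‖]) (h x)

theorem Acc.add {A B : E →L[ℂ] E} {k k' : ℝ} (h : Acc A k) (hB : ‖B‖ ≤ k') :
    Acc (A + B) (k + k') := fun x => by
  have h1 : ‖⟪x, B x⟫_ℂ‖ ≤ ‖x‖ * (k' * ‖x‖) := (norm_inner_le_norm _ _).trans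
    (mul_le_mul_of_nonneg_left (B.le_of_opNorm_le hB x) (norm_nonneg _))
  have h2 := (abs_le.1 ((Complex.abs_re_le_norm _).trans h1)).1
  have h3 := h x
  rw [add_apply, inner_add_right, Complex.add_re]
  nlinarith

theorem Acc.lower {A : E →L[ℂ] E} {k : ℝ} (h : Acc A k) (t : ℂ) (x : E) :
    (-t.re - k) * ‖x‖ ≤ ‖A x - t • x‖ := by
  rcases eq_or_lt_of_le (norm_nonneg x) with h0 | h0
  · rw [← h0, mul_zero]
    exact norm_nonneg _
  have h1 : (⟪x, A x - t • x⟫_ℂ).re ≤ ‖x‖ * ‖A x - t • x‖ :=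
    (Complex.re_le_norm _).trans (norm_inner_le_norm _ _)
  rw [inner_sub_right, inner_smul_right, inner_self_eq_norm_sq_to_K, Complex.sub_re] at h1
  have h2 : (t * ((‖x‖ : ℂ)) ^ 2).re = t.re * ‖x‖ ^ 2 := by
    rw [← Complex.ofReal_pow, Complex.re_mul_ofReal]
  have h3 := h x
  change (⟪x, A x⟫_ℂ).re - (t * ((‖x‖ : ℂ)) ^ 2).re ≤ _ at h1
  rw [h2] at h1
  refine le_of_mul_le_mul_left ?_ h0
  nlinarith

/-- Resolvent bound. -/
theorem Acc.res {A b : E →L[ℂ] E} {k : ℝ} (h : Acc A k) {t : ℂ} (ht : t.re < -k) (h0 : t ≠ 0)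
    (hb : (1 - t⁻¹ • A) * b = 1) : ‖b‖ ≤ ‖t‖ / (-t.re - k) := by
  have hp : 0 < -t.re - k := by linarith
  refine ContinuousLinearMap.opNorm_le_bound _ (by positivity) fun x => ?_
  have h1 : b x - t⁻¹ • A (b x) = x := congrArg (fun T : E →L[ℂ] E => T x) hb
  have h2 : A (b x) - t • b x = -(t • x) := by
    conv_rhs => rw [← h1]
    rw [smul_sub, smul_smul, mul_inv_cancel₀ h0, one_smul, neg_sub]
  have h3 := h.lower t (b x)
  rw [h2, norm_neg, norm_smul] at h3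
  rw [div_mul_eq_mul_div, le_div_iff₀ hp, mul_comm]
  exact h3

/-- Resolvent bound for the power series. -/
theorem Acc.ser [CompleteSpace E] {A : E →L[ℂ] E} {k : ℝ} (h : Acc A k) {t : ℂ} (ht : t.re < -k)
    (h0 : t ≠ 0) (hs : Summable fun l => ‖t⁻¹‖ ^ l * ‖A ^ l‖) :
    ‖∑' l, t⁻¹ ^ l • A ^ l‖ ≤ ‖t‖ / (-t.re - k) :=
  h.res ht h0 (ser_inv hs).1

theorem w_eq {A b : E →L[ℂ] E} {τ : ℝ} (hb : (1 + ((τ : ℂ))⁻¹ • A) * b = 1) (x : E) :
    (1 - b) x = ((τ : ℂ))⁻¹ • A (b x) := by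
  have h1 : b x + ((τ : ℂ))⁻¹ • A (b x) = x := congrArg (fun T : E →L[ℂ] E => T x) hb
  change x - b x = _
  rw [sub_eq_iff_eq_add', h1]

theorem norm_sq_split {A b : E →L[ℂ] E} {τ : ℝ} (hb : (1 + ((τ : ℂ))⁻¹ • A) * b = 1) (x : E) :
    ‖x‖ ^ 2 = ‖b x‖ ^ 2 + 2 * τ⁻¹ * (⟪b x, A (b x)⟫_ℂ).re + ‖(1 - b) x‖ ^ 2 := by
  have h1 : x = b x + (1 - b) x := by simp
  conv_lhs => rw [h1]
  rw [norm_add_sq (𝕜 := ℂ)]
  congr 2
  rw [w_eq hb, inner_smul_right, ← Complex.ofReal_inv]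
  change 2 * (((τ⁻¹ : ℝ) : ℂ) * _).re = _
  rw [Complex.re_ofReal_mul, mul_assoc]

/-- The operator `W = 1 - b` is a contraction. -/
theorem Acc.w_le {A b : E →L[ℂ] E} {k τ : ℝ} (h : Acc A k) (hτ : 0 < τ) (hk : k ≤ τ / 2)
    (hb : (1 + ((τ : ℂ))⁻¹ • A) * b = 1) : ‖1 - b‖ ≤ 1 := by
  refine ContinuousLinearMap.opNorm_le_bound _ zero_le_one fun x => ?_
  rw [one_mul]
  refine (pow_le_pow_iff_left₀ (norm_nonneg _) (norm_nonneg _) two_ne_zero).1 ?_
  have h1 := norm_sq_split hb x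
  have h2 := (h.mono hk) (b x)
  have h3 : 2 * τ⁻¹ * (-(τ / 2) * ‖b x‖ ^ 2) ≤ 2 * τ⁻¹ * (⟪b x, A (b x)⟫_ℂ).re :=
    mul_le_mul_of_nonneg_left h2 (by positivity)
  have h4 : 2 * τ⁻¹ * (-(τ / 2) * ‖b x‖ ^ 2) = -‖b x‖ ^ 2 := by field_simp
  linarith

/-- The relation between `W = 1 - b` and `A`. -/
theorem w_rel {R : Type*} [Ring R] [Algebra ℂ R] {A b : R} {τ : ℂ} (hτ : τ ≠ 0)
    (hb : b * (1 + τ⁻¹ • A) = 1) : b * A = τ • (1 - b) := by
  rw [mul_add, mul_one, mul_smul_comm] at hb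
  rw [← eq_sub_iff_add_eq'.2 hb, smul_smul, mul_inv_cancel₀ hτ, one_smul]

theorem w_rel' {R : Type*} [Ring R] [Algebra ℂ R] {A b : R} {τ : ℂ} (hτ : τ ≠ 0)
    (hb : (1 + τ⁻¹ • A) * b = 1) : A * b = τ • (1 - b) := by
  rw [add_mul, one_mul, smul_mul_assoc] at hb
  rw [← eq_sub_iff_add_eq'.2 hb, smul_smul, mul_inv_cancel₀ hτ, one_smul]

variable [CompleteSpace E]

open ContinuousLinearMap in
/-- Abstract Bessel bound. -/
theorem bessel_abs {W : E →L[ℂ] E} {v : E} {τ : ℝ} (hτ : 0 ≤ τ)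
    (h : ∀ x, ‖⟪v, x⟫_ℂ‖ ^ 2 ≤ τ * (‖x‖ ^ 2 - ‖adjoint W x‖ ^ 2)) (g : ℕ → ℂ) (n : ℕ) :
    ‖∑ N ∈ range n, g N • (W ^ N) v‖ ^ 2 ≤ τ * ∑ N ∈ range n, ‖g N‖ ^ 2 := by
  set S := ∑ N ∈ range n, g N • (W ^ N) v with hS
  have h1 : ∀ (m : ℕ) (x : E), ∑ N ∈ range m, ‖⟪(W ^ N) v, x⟫_ℂ‖ ^ 2 ≤ τ * ‖x‖ ^ 2 := by
    intro m
    induction m with
    | zero => intro x; simp only [sum_range_zero]; positivity
    | succ m ih =>
      intro x
      rw [sum_range_succ']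
      have h2 : ∀ N, ⟪(W ^ (N + 1)) v, x⟫_ℂ = ⟪(W ^ N) v, adjoint W x⟫_ℂ := fun N => by
        rw [adjoint_inner_right, pow_succ']
        rfl
      simp only [h2, pow_zero]
      rw [show (1 : E →L[ℂ] E) v = v from rfl]
      have h3 := ih (adjoint W x)
      have h4 := h x
      linarith
  have h5 : ‖S‖ ^ 2 ≤ ∑ N ∈ range n, ‖g N‖ * ‖⟪(W ^ N) v, S⟫_ℂ‖ := by
    have h6 : ‖S‖ ^ 2 = ‖⟪S, S⟫_ℂ‖ := by
      rw [inner_self_eq_norm_sq_to_K, norm_pow, RCLike.norm_ofReal, abs_norm]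
    rw [h6]
    conv_lhs => rw [hS, sum_inner, ← hS]
    refine (norm_sum_le _ _).trans (sum_le_sum fun N _ => ?_)
    rw [inner_smul_left, norm_mul, RCLike.norm_conj]
  have h7 := sum_mul_sq_le_sq_mul_sq (range n) (fun N => ‖g N‖) fun N => ‖⟪(W ^ N) v, S⟫_ℂ‖
  have h8 : 0 ≤ ∑ N ∈ range n, ‖g N‖ ^ 2 := sum_nonneg fun _ _ => by positivity
  have h9 : (‖S‖ ^ 2) ^ 2 ≤ (∑ N ∈ range n, ‖g N‖ ^ 2) * (τ * ‖S‖ ^ 2) :=
    ((pow_le_pow_left₀ (by positivity) h5 2).trans h7).trans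
      (mul_le_mul_of_nonneg_left (h1 n S) h8)
  rcases eq_or_lt_of_le (sq_nonneg ‖S‖) with h0 | h0
  · rw [← h0]
    positivity
  · refine le_of_mul_le_mul_right ?_ h0
    nlinarith

open ContinuousLinearMap in
/-- Bessel bound for the orbit of `b e` under `W = 1 - b`. -/
theorem bessel {A b : E →L[ℂ] E} {e : E} {τ : ℝ} (hτ : 0 < τ)
    (hA : ∀ x, ‖⟪e, x⟫_ℂ‖ ^ 2 ≤ 2 * (⟪x, A x⟫_ℂ).re) (hb : b * (1 + ((τ : ℂ))⁻¹ • A) = 1)
    (g : ℕ → ℂ) (n : ℕ) :
    ‖∑ N ∈ range n, g N • ((1 - b) ^ N) (b e)‖ ^ 2 ≤ τ * ∑ N ∈ range n, ‖g N‖ ^ 2 := by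
  refine bessel_abs hτ.le (fun x => ?_) g n
  have h1 : (1 + ((τ : ℂ))⁻¹ • star A) * star b = 1 := by
    have := congrArg star hb
    rwa [star_mul, star_add, star_one, star_smul, star_inv₀, Complex.star_def,
      Complex.conj_ofReal] at this
  have h2 := norm_sq_split h1 x
  have h3 : adjoint (1 - b) x = (1 - star b) x := by
    rw [← star_eq_adjoint, star_sub, star_one]
  have h4 : ⟪b e, x⟫_ℂ = ⟪e, star b x⟫_ℂ := by rw [star_eq_adjoint, adjoint_inner_right]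
  have h5 : (⟪star b x, star A (star b x)⟫_ℂ).re = (⟪star b x, A (star b x)⟫_ℂ).re := by
    rw [star_eq_adjoint A, adjoint_inner_right, ← inner_conj_symm, Complex.conj_re]
  have h6 := hA (star b x)
  rw [h3, h4, h2, h5]
  have h7 : τ * (‖star b x‖ ^ 2 + 2 * τ⁻¹ * (⟪star b x, A (star b x)⟫_ℂ).re +
      ‖(1 - star b) x‖ ^ 2 - ‖(1 - star b) x‖ ^ 2) =
      τ * ‖star b x‖ ^ 2 + 2 * (⟪star b x, A (star b x)⟫_ℂ).re := by
    field_simp
    ring
  rw [h7]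
  have : 0 ≤ τ * ‖star b x‖ ^ 2 := by positivity
  linarith

end Hilbert

end Pool.Agent.P.MP_f981b0_an.IS27
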